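import Pool.Agent.Run7.h860.Hd.Opt

/-!
# Heights of the zeros of a polynomial (piece HP of helper860's project; helper579)
-/

set_option autoImplicit false

open Polynomial Finset
open Pool.Agent.Helper259.AbsHt Pool.Agent.Helper259.HtPoly

namespace Pool.Agent.Run7.h579.Hd

open Pool.Agent.Run7.h860.Hd

/-- the height of a number and of the linear polynomial with this zero -/
theorem lin (n : ℕ) (hn : 1 ≤ n) (α : Qbar) :
    absLogHeight ![1, α] ≤ Real.log (Nat.card (Fin 2)) + absLogHeight (fun a : Fin 2 × Fin 2 =>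
      if a.1 = a.2 then (if a.1 = 0 then (1 : Qbar) else -1) else 0) +
      absLogHeight (cv n (X - C α)) := by
  have h3 := absLogHeight_comp_le (![⟨1, by omega⟩, ⟨0, by omega⟩] : Fin 2 → Fin (n + 1))
    (cv n (X - C α))
  have e3 : cv n (X - C α) ∘ (![⟨1, by omega⟩, ⟨0, by omega⟩] : Fin 2 → Fin (n + 1)) =
      ![1, -α] := by
    funext j
    fin_cases j
    · simp [cv, coeff_X, coeff_C]
    · simp [cv]
  rw [e3] at h3
  have h4 := absLogHeight_linear (fun a : Fin 2 × Fin 2 =>
    if a.1 = a.2 then (if a.1 = 0 then (1 : Qbar) else -1) else 0) ![1, -α]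
  have e4 : (fun j : Fin 2 => ∑ i, (fun a : Fin 2 × Fin 2 =>
      if a.1 = a.2 then (if a.1 = 0 then (1 : Qbar) else -1) else 0) (j, i) * ![1, -α] i) =
      ![1, α] := by
    funext j
    fin_cases j <;> simp
  rw [e4] at h4
  linarith

theorem t_HP : S_HP := by
  intro n
  set B : ℝ := Real.log (Nat.card (Fin 2)) + absLogHeight (fun a : Fin 2 × Fin 2 =>
    if a.1 = a.2 then (if a.1 = 0 then (1 : Qbar) else -1) else 0) +
    Real.log (2 ^ n * (n + 1)) with hB
  have hB0 : 0 ≤ B := by
    have h1 : 0 ≤ Real.log (Nat.card (Fin 2)) := by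
      apply Real.log_nonneg
      simp
    have h2 := absLogHeight_nonneg (fun a : Fin 2 × Fin 2 =>
      if a.1 = a.2 then (if a.1 = 0 then (1 : Qbar) else -1) else 0)
    have h3 : 0 ≤ Real.log ((2:ℝ) ^ n * (n + 1)) := by
      apply Real.log_nonneg
      have : (1:ℝ) ≤ 2 ^ n := one_le_pow₀ (by norm_num)
      have h4 : (1:ℝ) ≤ (n:ℝ) + 1 := by
        have := Nat.cast_nonneg (α := ℝ) n
        linarith
      nlinarith
    rw [hB]
    linarith
  have main : ∀ d : ℕ, d ≤ n → ∀ f : Polynomial Qbar, f ≠ 0 → f.natDegree ≤ d →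
      (f.roots.map fun z => absLogHeight ![1, z]).sum ≤ d * B + absLogHeight (cv n f) := by
    intro d
    induction d with
    | zero =>
      intro _ f hf hd
      have h0 : f.roots = 0 := by
        rw [← Multiset.card_eq_zero]
        have := f.card_roots'
        omega
      rw [h0]
      simpa using absLogHeight_nonneg (cv n f)
    | succ d ih =>
      intro hdn f hf hd
      by_cases h0 : f.roots = 0
      · rw [h0]
        have h1 := absLogHeight_nonneg (cv n f)
        have h2 : (0:ℝ) ≤ ((d + 1 : ℕ) : ℝ) * B := by positivity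
        simp only [Multiset.map_zero, Multiset.sum_zero]
        linarith
      · obtain ⟨α, hα⟩ := Multiset.exists_mem_of_ne_zero h0
        have hroot : f.IsRoot α := (mem_roots hf).1 hα
        obtain ⟨Q, hQ⟩ := Polynomial.dvd_iff_isRoot.mpr hroot
        have hQ0 : Q ≠ 0 := by rintro rfl; simp at hQ; exact hf hQ
        have hdeg : (X - C α).natDegree + Q.natDegree = f.natDegree := by
          rw [← natDegree_mul (X_sub_C_ne_zero α) hQ0, ← hQ]
        have hdeg2 := hdeg
        rw [natDegree_X_sub_C] at hdeg2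
        have h1 := absLogHeight_polymul n (X - C α) Q (X_sub_C_ne_zero α) hQ0 (by omega)
        rw [← hQ] at h1
        have h2 := lin n (by omega) α
        have h3 := ih (by omega) Q hQ0 (by omega)
        have hr : f.roots = α ::ₘ Q.roots := by
          have hne : (X - C α) * Q ≠ 0 := mul_ne_zero (X_sub_C_ne_zero α) hQ0
          have h4 : f.roots = ((X - C α) * Q).roots := by rw [← hQ]
          rw [h4, roots_mul hne, roots_X_sub_C, Multiset.singleton_add]
        rw [hr, Multiset.map_cons, Multiset.sum_cons]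
        push_cast
        rw [hB] at h3 ⊢
        linarith
  refine ⟨n * B, fun f hf hn => main n le_rfl f hf hn⟩

end Pool.Agent.Run7.h579.Hd
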